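import Mathlib

/-!
Extensions with a centreless kernel whose inner automorphisms have a complement are semidirect
products.
-/

set_option autoImplicit false

namespace Pool.Agent.Y461.DC

theorem inner_normal (G : Type) [Group G] : (MulAut.conj : G →* MulAut G).range.Normal := by
  refine ⟨?_⟩
  rintro _ ⟨g, rfl⟩ f
  refine ⟨f g, ?_⟩
  ext x
  simp [MulAut.conj_apply]

theorem conj_map {G : Type} [Group G] (f : MulAut G) (g : G) :
    MulAut.conj (f g) = f * MulAut.conj g * f⁻¹ := by
  ext x
  simp [MulAut.conj_apply]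

theorem conj_inj {G : Type} [Group G] (hZ : Subgroup.center G = ⊥) :
    Function.Injective (MulAut.conj : G →* MulAut G) := by
  rw [injective_iff_map_eq_one]
  intro g hg
  have h1 : g ∈ Subgroup.center G := by
    rw [Subgroup.mem_center_iff]
    intro h
    have h2 : MulAut.conj g h = h := by rw [hg]; rfl
    rw [MulAut.conj_apply] at h2
    have h3 := congrArg (· * g) h2
    simp only [inv_mul_cancel_right] at h3
    exact h3.symm
  rw [hZ] at h1
  exact Subgroup.mem_bot.mp h1

/-- the retraction onto the complement -/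
theorem exists_proj (G : Type) [Group G] (T : Subgroup (MulAut G))
    (hT : IsCompl T (MulAut.conj : G →* MulAut G).range) :
    ∃ π : MulAut G →* MulAut G, (∀ g, π (MulAut.conj g) = 1) ∧
      ∀ f, ∃ g, MulAut.conj g = f * (π f)⁻¹ := by
  have hN : (MulAut.conj : G →* MulAut G).range.Normal := inner_normal G
  set I := (MulAut.conj : G →* MulAut G).range with hI
  have hc : T.IsComplement' I := by
    apply Subgroup.isComplement'_of_disjoint_and_mul_eq_univ hT.disjoint
    rw [← Subgroup.mul_normal, hT.sup_eq_top]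
    rfl
  set E := hc.QuotientMulEquiv with hE
  have hEs : ∀ t : T, E.symm t = QuotientGroup.mk (t : MulAut G) := fun t => rfl
  refine ⟨T.subtype.comp (E.toMonoidHom.comp (QuotientGroup.mk' I)), ?_, ?_⟩
  · intro g
    have h1 : (QuotientGroup.mk' I) (MulAut.conj g) = 1 := by
      rw [QuotientGroup.mk'_apply, QuotientGroup.eq_one_iff]
      exact ⟨g, rfl⟩
    rw [MonoidHom.comp_apply, MonoidHom.comp_apply, h1, map_one, map_one]
  · intro f
    set t := E (QuotientGroup.mk' I f) with ht
    have h1 : (QuotientGroup.mk (t : MulAut G) : MulAut G ⧸ I) = QuotientGroup.mk f := by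
      rw [← hEs, ht, MulEquiv.symm_apply_apply]
      rfl
    have h2 : f * (t : MulAut G)⁻¹ ∈ I := by
      rw [← QuotientGroup.eq_one_iff]
      have h3 : ((f * (t : MulAut G)⁻¹ : MulAut G) : MulAut G ⧸ I) =
          (f : MulAut G ⧸ I) * ((t : MulAut G) : MulAut G ⧸ I)⁻¹ := rfl
      rw [h3, h1, mul_inv_cancel]
    obtain ⟨g, hg⟩ := h2
    exact ⟨g, hg⟩

theorem classify {X Γ G : Type} [Group X] [Group Γ] [Group G] (hZ : Subgroup.center G = ⊥)
    (T : Subgroup (MulAut G)) (hT : IsCompl T (MulAut.conj : G →* MulAut G).range)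
    (α : X →* Γ) (hα : Function.Surjective α) (e : α.ker ≃* G) :
    ∃ (β : Γ →* MulAut G) (Θ : X ≃* G ⋊[β] Γ), ∀ x, (Θ x).right = α x := by
  obtain ⟨π, hπ1, hπ2⟩ := exists_proj G T hT
  have hinj := conj_inj hZ
  have hmem : ∀ (x n : X), n ∈ α.ker → x * n * x⁻¹ ∈ α.ker := fun x n hn =>
    (MonoidHom.normal_ker α).conj_mem n hn x
  set c : X →* MulAut G := (MulAut.congr e).toMonoidHom.comp MulAut.conjNormal with hc
  have hcapp : ∀ (x n : X) (hn : n ∈ α.ker), c x (e ⟨n, hn⟩) = e ⟨x * n * x⁻¹, hmem x n hn⟩ := by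
    intro x n hn
    change e (MulAut.conjNormal x (e.symm (e ⟨n, hn⟩))) = _
    rw [MulEquiv.symm_apply_apply]
    congr 1
  have hcker : ∀ (n : X) (hn : n ∈ α.ker), c n = MulAut.conj (e ⟨n, hn⟩) := by
    intro n hn
    apply MulEquiv.ext
    intro g
    obtain ⟨⟨m, hm⟩, rfl⟩ := e.surjective g
    rw [hcapp, MulAut.conj_apply, ← map_mul, ← map_inv, ← map_mul]
    rfl
  set b : X →* MulAut G := π.comp c with hb
  have hbker : α.ker ≤ b.ker := by
    intro n hn
    rw [MonoidHom.mem_ker, hb, MonoidHom.comp_apply, hcker n hn, hπ1]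
  set β : Γ →* MulAut G := α.liftOfSurjective hα ⟨b, hbker⟩ with hβ
  have hβα : ∀ x, β (α x) = b x := fun x =>
    MonoidHom.liftOfRightInverse_comp_apply α _ (Function.rightInverse_surjInv hα) ⟨b, hbker⟩ x
  choose γ hγ using fun x => hπ2 (c x)
  have hγ' : ∀ x, MulAut.conj (γ x) = c x * (b x)⁻¹ := hγ
  have huniq : ∀ x g, MulAut.conj g = c x * (b x)⁻¹ → γ x = g := by
    intro x g h
    exact hinj ((hγ' x).trans h.symm)
  have hγmul : ∀ x y, γ (x * y) = γ x * b x (γ y) := by
    intro x y
    apply huniq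
    rw [map_mul, conj_map, hγ', hγ', map_mul, map_mul]
    group
  have hγker : ∀ (n : X) (hn : n ∈ α.ker) (x : X), γ (n * x) = e ⟨n, hn⟩ * γ x := by
    intro n hn x
    apply huniq
    have h1 : b n = 1 := hbker hn
    rw [map_mul, ← hcker n hn, hγ', map_mul, map_mul, h1, one_mul, mul_assoc]
  let θ : X →* G ⋊[β] Γ :=
    { toFun := fun x => ⟨γ x, α x⟩
      map_one' := by
        apply SemidirectProduct.ext
        · exact huniq 1 1 (by simp)
        · exact map_one α
      map_mul' := by
        intro x y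
        apply SemidirectProduct.ext
        · change γ (x * y) = γ x * β (α x) (γ y)
          rw [hβα, hγmul]
        · exact map_mul α x y }
  have hθinj : Function.Injective θ := by
    rw [injective_iff_map_eq_one]
    intro x hx
    have h1 : γ x = 1 := congrArg (fun z : G ⋊[β] Γ => z.left) hx
    have h2 : α x = 1 := congrArg (fun z : G ⋊[β] Γ => z.right) hx
    have hxk : x ∈ α.ker := h2
    have h3 := hγker x hxk 1
    rw [mul_one, h1] at h3
    have h4 : γ 1 = 1 := huniq 1 1 (by simp)
    rw [h4, mul_one] at h3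
    have h5 : (⟨x, hxk⟩ : α.ker) = 1 := by
      apply e.injective
      rw [← h3, map_one]
    exact congrArg (fun z : α.ker => (z : X)) h5
  have hθsurj : Function.Surjective θ := by
    rintro ⟨g, s⟩
    obtain ⟨x, rfl⟩ := hα s
    obtain ⟨⟨n, hn⟩, hn2⟩ := e.surjective (g * (γ x)⁻¹)
    refine ⟨n * x, ?_⟩
    apply SemidirectProduct.ext
    · change γ (n * x) = g
      rw [hγker n hn, hn2, inv_mul_cancel_right]
    · change α (n * x) = α x
      have : α n = 1 := hn
      rw [map_mul, this, one_mul]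
  exact ⟨β, MulEquiv.ofBijective θ ⟨hθinj, hθsurj⟩, fun x => rfl⟩

end Pool.Agent.Y461.DC
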