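import Pool.Agent.Y60.DC.Stm3
import Pool.Agent.TH59.WX.UE
import Pool.Agent.Y461.DC.CentA

/-!
Job DC-CENT.
-/

set_option autoImplicit false

namespace Pool.Agent.Y461.DC

theorem cent_holds : Pool.Agent.Y60.DC.TaskCENT := by
  rintro p G _ _ hZ ⟨T, hT⟩ hloc K L X _ _ _ _ _ _ _ _ α hα ⟨e⟩
  obtain ⟨β, Θ, hΘ⟩ := classify hZ T hT α hα e
  exact Pool.Agent.TH59.WX.reg_transport SemidirectProduct.rightHom α Θ hΘ (hloc K L β)

end Pool.Agent.Y461.DC
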