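import Mathlib

/-!
The inner automorphisms of `PSL_2(F)` have a complement: the main argument.
-/

set_option autoImplicit false

namespace Pool.Agent.Y461.DC

open Matrix

/-- `f` is induced by `A ↦ g φ(A) g⁻¹` -/
def RR (F : Type) [Field F] (f : MulAut (Matrix.ProjectiveSpecialLinearGroup (Fin 2) F))
    (g : Matrix (Fin 2) (Fin 2) F) (φ : F ≃+* F) : Prop :=
  ∀ A B : Matrix.SpecialLinearGroup (Fin 2) F,
    (B : Matrix (Fin 2) (Fin 2) F) * g = g * (A : Matrix (Fin 2) (Fin 2) F).map φ →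
    f (QuotientGroup.mk A) = QuotientGroup.mk B

variable {F : Type} [Field F]

theorem map_det (φ : F ≃+* F) (M : Matrix (Fin 2) (Fin 2) F) : (M.map φ).det = φ M.det := by
  simp [Matrix.det_fin_two]

theorem map_mul' (φ : F ≃+* F) (M N : Matrix (Fin 2) (Fin 2) F) :
    (M * N).map φ = M.map φ * N.map φ := Matrix.map_mul

theorem map_symm (φ : F ≃+* F) (M : Matrix (Fin 2) (Fin 2) F) : (M.map (φ⁻¹ : F ≃+* F)).map φ = M := by
  ext i j
  simp only [Matrix.map_apply]
  exact φ.apply_symm_apply _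

theorem cancel_right {g X Y : Matrix (Fin 2) (Fin 2) F} (hg : g.det ≠ 0) (h : X * g = Y * g) :
    X = Y := by
  have hu : IsUnit g.det := isUnit_iff_ne_zero.mpr hg
  have := congrArg (· * g⁻¹) h
  simpa [Matrix.mul_assoc, Matrix.mul_nonsing_inv g hu] using this

theorem cancel_left {g X Y : Matrix (Fin 2) (Fin 2) F} (hg : g.det ≠ 0) (h : g * X = g * Y) :
    X = Y := by
  have hu : IsUnit g.det := isUnit_iff_ne_zero.mpr hg
  have := congrArg (g⁻¹ * ·) h
  simpa [← Matrix.mul_assoc, Matrix.nonsing_inv_mul g hu] using this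

/-- the conjugate exists in `SL_2` -/
theorem exists_conj {g : Matrix (Fin 2) (Fin 2) F} (hg : g.det ≠ 0) (φ : F ≃+* F)
    (A : Matrix.SpecialLinearGroup (Fin 2) F) : ∃ B : Matrix.SpecialLinearGroup (Fin 2) F,
      (B : Matrix (Fin 2) (Fin 2) F) * g = g * (A : Matrix (Fin 2) (Fin 2) F).map φ := by
  have hu : IsUnit g.det := isUnit_iff_ne_zero.mpr hg
  have hA : ((A : Matrix (Fin 2) (Fin 2) F).map φ).det = 1 := by
    rw [map_det, A.det_coe, map_one]
  refine ⟨⟨g * (A : Matrix (Fin 2) (Fin 2) F).map φ * g⁻¹, ?_⟩, ?_⟩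
  · rw [Matrix.det_mul, Matrix.det_mul, hA, mul_one, ← Matrix.det_mul, Matrix.mul_nonsing_inv g hu,
      Matrix.det_one]
  · change g * (A : Matrix (Fin 2) (Fin 2) F).map φ * g⁻¹ * g = _
    rw [Matrix.mul_assoc, Matrix.nonsing_inv_mul g hu, Matrix.mul_one]

theorem RR.mul {f f' : MulAut (Matrix.ProjectiveSpecialLinearGroup (Fin 2) F)}
    {g g' : Matrix (Fin 2) (Fin 2) F} {φ φ' : F ≃+* F} (h : RR F f g φ) (h' : RR F f' g' φ')
    (hg' : g'.det ≠ 0) : RR F (f * f') (g * g'.map φ) (φ * φ') := by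
  intro A B hB
  obtain ⟨B', hB'⟩ := exists_conj hg' φ' A
  rw [MulAut.mul_apply, h' A B' hB']
  apply h
  have h1 : (A : Matrix (Fin 2) (Fin 2) F).map (φ * φ') =
      ((A : Matrix (Fin 2) (Fin 2) F).map φ').map φ := by
    ext i j; rfl
  have h2 := congrArg (fun M : Matrix (Fin 2) (Fin 2) F => M.map φ) hB'
  simp only [map_mul'] at h2
  rw [h1] at hB
  have hd : (g'.map φ).det ≠ 0 := by
    rw [map_det]; exact fun e => hg' (by simpa using e)
  apply cancel_right hd
  rw [Matrix.mul_assoc, hB, Matrix.mul_assoc, Matrix.mul_assoc, h2]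

theorem RR.smul {f : MulAut (Matrix.ProjectiveSpecialLinearGroup (Fin 2) F)}
    {g : Matrix (Fin 2) (Fin 2) F} {φ : F ≃+* F} {c : F} (h : RR F f (c • g) φ) :
    RR F f g φ := by
  intro A B hB
  apply h
  rw [Matrix.mul_smul, hB, Matrix.smul_mul]

theorem RR.inv {f : MulAut (Matrix.ProjectiveSpecialLinearGroup (Fin 2) F)}
    {g : Matrix (Fin 2) (Fin 2) F} {φ : F ≃+* F} (h : RR F f g φ) (hg : g.map φ = g)
    {c : F} (hc : c ≠ 0) (hgg : g * g = c • (1 : Matrix (Fin 2) (Fin 2) F)) :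
    RR F f⁻¹ g φ⁻¹ := by
  intro A B hB
  have h1 := congrArg (fun M : Matrix (Fin 2) (Fin 2) F => M.map φ) hB
  simp only [map_mul', map_symm, hg] at h1
  have h2 : (A : Matrix (Fin 2) (Fin 2) F) * g = g * (B : Matrix (Fin 2) (Fin 2) F).map φ := by
    have h3 : g * ((B : Matrix (Fin 2) (Fin 2) F).map φ * g) * g =
        g * (g * (A : Matrix (Fin 2) (Fin 2) F)) * g := by rw [h1]
    have h4 : g * ((B : Matrix (Fin 2) (Fin 2) F).map φ * g) * g =
        (g * (B : Matrix (Fin 2) (Fin 2) F).map φ) * (g * g) := by simp only [Matrix.mul_assoc]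
    have h5 : g * (g * (A : Matrix (Fin 2) (Fin 2) F)) * g =
        (g * g) * ((A : Matrix (Fin 2) (Fin 2) F) * g) := by simp only [Matrix.mul_assoc]
    rw [h4, h5, hgg, Matrix.mul_smul, Matrix.mul_one, Matrix.smul_mul, Matrix.one_mul] at h3
    exact (smul_right_injective _ hc h3).symm
  have h6 := h B A h2
  rw [MulAut.inv_apply, MulEquiv.symm_apply_eq]
  exact h6.symm

/-- composition with an inner automorphism -/
theorem RR.inner {f : MulAut (Matrix.ProjectiveSpecialLinearGroup (Fin 2) F)}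
    {g d : Matrix (Fin 2) (Fin 2) F} {φ : F ≃+* F} (h : RR F f g φ) {c : F}
    (s : Matrix.SpecialLinearGroup (Fin 2) F)
    (hg : g = c • ((s : Matrix (Fin 2) (Fin 2) F) * d)) :
    RR F ((MulAut.conj (QuotientGroup.mk s : Matrix.ProjectiveSpecialLinearGroup (Fin 2) F))⁻¹ * f)
      d φ := by
  intro A C hC
  have h1 : ((s * C * s⁻¹ : Matrix.SpecialLinearGroup (Fin 2) F) : Matrix (Fin 2) (Fin 2) F) * g =
      g * (A : Matrix (Fin 2) (Fin 2) F).map φ := by
    have h2 : ((s * C * s⁻¹ : Matrix.SpecialLinearGroup (Fin 2) F) : Matrix (Fin 2) (Fin 2) F) *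
        (s : Matrix (Fin 2) (Fin 2) F) =
        (s : Matrix (Fin 2) (Fin 2) F) * (C : Matrix (Fin 2) (Fin 2) F) := by
      rw [← Matrix.SpecialLinearGroup.coe_mul, ← Matrix.SpecialLinearGroup.coe_mul,
        inv_mul_cancel_right]
    rw [hg, Matrix.mul_smul, ← Matrix.mul_assoc, h2, Matrix.mul_assoc, hC, Matrix.smul_mul,
      Matrix.mul_assoc]
  have h3 := h A _ h1
  rw [MulAut.mul_apply, h3, MulAut.inv_apply, MulEquiv.symm_apply_eq, MulAut.conj_apply]
  rfl

theorem mk_eq_smul {B C : Matrix.SpecialLinearGroup (Fin 2) F}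
    (h : (QuotientGroup.mk B : Matrix.ProjectiveSpecialLinearGroup (Fin 2) F) =
      QuotientGroup.mk C) : ∃ ε : F, ε ^ 2 = 1 ∧
      (C : Matrix (Fin 2) (Fin 2) F) = ε • (B : Matrix (Fin 2) (Fin 2) F) := by
  rw [QuotientGroup.eq, Matrix.SpecialLinearGroup.mem_center_iff] at h
  obtain ⟨ε, hε, h⟩ := h
  refine ⟨ε, by simpa using hε, ?_⟩
  have h1 : (B : Matrix (Fin 2) (Fin 2) F) *
      ((B⁻¹ * C : Matrix.SpecialLinearGroup (Fin 2) F) : Matrix (Fin 2) (Fin 2) F) =
      (C : Matrix (Fin 2) (Fin 2) F) := by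
    rw [← Matrix.SpecialLinearGroup.coe_mul, mul_inv_cancel_left]
  rw [← h1, ← h]
  simp [Matrix.scalar_apply, ← Matrix.smul_one_eq_diagonal]

/-- the unipotent matrices -/
def U (x : F) : Matrix.SpecialLinearGroup (Fin 2) F := ⟨!![1, x; 0, 1], by simp⟩

/-- the transposed unipotent matrix -/
def L (F : Type) [Field F] : Matrix.SpecialLinearGroup (Fin 2) F := ⟨!![1, 0; 1, 1], by simp⟩

theorem scalar_of {h : Matrix (Fin 2) (Fin 2) F} (hdet : h.det ≠ 0) {φ : F ≃+* F}
    (hK : ∀ A : Matrix.SpecialLinearGroup (Fin 2) F, ∃ ε : F, ε ^ 2 = 1 ∧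
      (A : Matrix (Fin 2) (Fin 2) F) * h = ε • (h * (A : Matrix (Fin 2) (Fin 2) F).map φ)) :
    h = h 0 0 • (1 : Matrix (Fin 2) (Fin 2) F) := by
  rw [Matrix.det_fin_two] at hdet
  obtain ⟨ε, -, h1⟩ := hK (U 1)
  obtain ⟨ε', -, h2⟩ := hK (L F)
  have a1 := congrFun (congrFun h1 0) 0
  have a2 := congrFun (congrFun h1 0) 1
  have a3 := congrFun (congrFun h1 1) 0
  have a4 := congrFun (congrFun h1 1) 1
  have b1 := congrFun (congrFun h2 0) 0
  have b2 := congrFun (congrFun h2 0) 1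
  have b3 := congrFun (congrFun h2 1) 0
  have b4 := congrFun (congrFun h2 1) 1
  simp [U, Matrix.mul_apply, Fin.sum_univ_two] at a1 a2 a3 a4
  simp [L, Matrix.mul_apply, Fin.sum_univ_two] at b1 b2 b3 b4
  have hc : h 1 0 = 0 ∧ h 0 0 = h 1 1 := by
    by_cases hε : ε = 1
    · rw [hε] at a1 a2
      have c1 : h 1 0 = 0 := by linear_combination a1
      exact ⟨c1, by linear_combination -a2⟩
    · exfalso
      have hε' : 1 - ε ≠ 0 := sub_ne_zero.mpr (Ne.symm hε)
      have c1 : h 1 0 = 0 := by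
        have : (1 - ε) * h 1 0 = 0 := by linear_combination a3
        exact (mul_eq_zero.mp this).resolve_left hε'
      have c2 : h 0 0 = 0 := by
        have : (1 - ε) * h 0 0 = 0 := by linear_combination a1 - c1
        exact (mul_eq_zero.mp this).resolve_left hε'
      apply hdet
      rw [c1, c2]; ring
  have hb : h 0 1 = 0 := by
    by_cases hε : ε' = 1
    · rw [hε] at b1
      linear_combination -b1
    · exfalso
      have hε' : 1 - ε' ≠ 0 := sub_ne_zero.mpr (Ne.symm hε)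
      have c1 : h 0 1 = 0 := by
        have : (1 - ε') * h 0 1 = 0 := by linear_combination b2
        exact (mul_eq_zero.mp this).resolve_left hε'
      have c2 : h 0 0 = 0 := by
        have : (1 - ε') * h 0 0 = 0 := by linear_combination b1 + ε' * c1
        exact (mul_eq_zero.mp this).resolve_left hε'
      apply hdet
      rw [c1, c2]; ring
  ext i j
  fin_cases i <;> fin_cases j <;> simp [hc.1, hb, ← hc.2]

theorem disj {d : Matrix (Fin 2) (Fin 2) F} (hd : d.det ≠ 0) (hns : d = 1 ∨ ¬ IsSquare d.det)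
    {f : MulAut (Matrix.ProjectiveSpecialLinearGroup (Fin 2) F)} {φ : F ≃+* F}
    (h : RR F f d φ) (s : Matrix.SpecialLinearGroup (Fin 2) F)
    (hf : MulAut.conj (QuotientGroup.mk s : Matrix.ProjectiveSpecialLinearGroup (Fin 2) F) = f) :
    f = 1 := by
  have hsdet : (s : Matrix (Fin 2) (Fin 2) F).det ≠ 0 := by rw [s.det_coe]; exact one_ne_zero
  set H : Matrix (Fin 2) (Fin 2) F :=
    ((s⁻¹ : Matrix.SpecialLinearGroup (Fin 2) F) : Matrix (Fin 2) (Fin 2) F) * d with hH
  have hsH : (s : Matrix (Fin 2) (Fin 2) F) * H = d := by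
    rw [hH, ← Matrix.mul_assoc, ← Matrix.SpecialLinearGroup.coe_mul, mul_inv_cancel,
      Matrix.SpecialLinearGroup.coe_one, Matrix.one_mul]
  have hHdet : H.det ≠ 0 := by
    rw [hH, Matrix.det_mul, Matrix.SpecialLinearGroup.det_coe, one_mul]; exact hd
  have hK : ∀ A : Matrix.SpecialLinearGroup (Fin 2) F, ∃ ε : F, ε ^ 2 = 1 ∧
      (A : Matrix (Fin 2) (Fin 2) F) * H = ε • (H * (A : Matrix (Fin 2) (Fin 2) F).map φ) := by
    intro A
    obtain ⟨B, hB⟩ := exists_conj hd φ A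
    have h1 := h A B hB
    rw [← hf, MulAut.conj_apply] at h1
    have h2 : (QuotientGroup.mk B : Matrix.ProjectiveSpecialLinearGroup (Fin 2) F) =
        QuotientGroup.mk (s * A * s⁻¹) := h1.symm
    obtain ⟨ε, hε, h3⟩ := mk_eq_smul h2
    refine ⟨ε, hε, ?_⟩
    apply cancel_left hsdet
    have h4 : (s : Matrix (Fin 2) (Fin 2) F) * (A : Matrix (Fin 2) (Fin 2) F) =
        ((s * A * s⁻¹ : Matrix.SpecialLinearGroup (Fin 2) F) : Matrix (Fin 2) (Fin 2) F) *
          (s : Matrix (Fin 2) (Fin 2) F) := by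
      rw [← Matrix.SpecialLinearGroup.coe_mul, ← Matrix.SpecialLinearGroup.coe_mul,
        inv_mul_cancel_right]
    rw [← Matrix.mul_assoc, h4, Matrix.mul_assoc, hsH, h3, Matrix.smul_mul, hB, Matrix.mul_smul,
      ← Matrix.mul_assoc, hsH]
  have hsc := scalar_of hHdet hK
  set a := H 0 0 with ha
  have hds : d = a • (s : Matrix (Fin 2) (Fin 2) F) := by
    rw [← hsH, hsc, Matrix.mul_smul, Matrix.mul_one]
  have hd1 : d = 1 := by
    rcases hns with h1 | h1
    · exact h1
    · exfalso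
      apply h1
      refine ⟨a, ?_⟩
      rw [hds, Matrix.det_smul, s.det_coe]
      simp [sq]
  have ha0 : a ≠ 0 := by
    rintro e
    rw [e, zero_smul] at hds
    rw [hds] at hd
    simp at hd
  have hs : (QuotientGroup.mk s : Matrix.ProjectiveSpecialLinearGroup (Fin 2) F) = 1 := by
    rw [QuotientGroup.eq_one_iff, Matrix.SpecialLinearGroup.mem_center_iff]
    have hs1 : (s : Matrix (Fin 2) (Fin 2) F) = a⁻¹ • (1 : Matrix (Fin 2) (Fin 2) F) := by
      rw [← hd1, hds, smul_smul, inv_mul_cancel₀ ha0, one_smul]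
    refine ⟨a⁻¹, ?_, ?_⟩
    · have := s.det_coe
      rw [hs1, Matrix.det_smul, Matrix.det_one, mul_one] at this
      exact this
    · rw [hs1, Matrix.scalar_apply, Matrix.smul_one_eq_diagonal]
  rw [← hf, hs, map_one]

theorem compl_of (hfull : ∀ f : MulAut (Matrix.ProjectiveSpecialLinearGroup (Fin 2) F),
      ∃ (g : Matrix (Fin 2) (Fin 2) F) (φ : F ≃+* F), g.det ≠ 0 ∧ RR F f g φ)
    (d : Matrix (Fin 2) (Fin 2) F) (hφ : ∀ φ : F ≃+* F, d.map φ = d) {c₀ : F} (hc₀ : c₀ ≠ 0)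
    (hd2 : d * d = c₀ • (1 : Matrix (Fin 2) (Fin 2) F)) (hd : d.det ≠ 0)
    (hsq : ∀ x : F, x ≠ 0 → (∃ c, x = c ^ 2) ∨ ∃ c, x = c ^ 2 * d.det)
    (hns : d = 1 ∨ ¬ IsSquare d.det) :
    ∃ T : Subgroup (MulAut (Matrix.ProjectiveSpecialLinearGroup (Fin 2) F)),
      IsCompl T (MulAut.conj : Matrix.ProjectiveSpecialLinearGroup (Fin 2) F →*
        MulAut (Matrix.ProjectiveSpecialLinearGroup (Fin 2) F)).range := by
  have h1map : ∀ φ : F ≃+* F, (1 : Matrix (Fin 2) (Fin 2) F).map φ = 1 := fun φ => by simp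
  have h1d : (1 : Matrix (Fin 2) (Fin 2) F).det ≠ 0 := by rw [Matrix.det_one]; exact one_ne_zero
  let T : Subgroup (MulAut (Matrix.ProjectiveSpecialLinearGroup (Fin 2) F)) :=
    { carrier := {f | ∃ φ : F ≃+* F, RR F f 1 φ ∨ RR F f d φ}
      one_mem' := by
        refine ⟨1, Or.inl ?_⟩
        intro A B hB
        have : B = A := by
          apply Subtype.ext
          have h1 : (A : Matrix (Fin 2) (Fin 2) F).map (1 : F ≃+* F) = A := by
            ext i j; rfl
          rw [h1, Matrix.mul_one, Matrix.one_mul] at hB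
          exact hB
        rw [this]; rfl
      mul_mem' := by
        rintro f f' ⟨φ, h | h⟩ ⟨φ', h' | h'⟩
        · refine ⟨φ * φ', Or.inl ?_⟩
          have := h.mul h' h1d
          rwa [h1map, Matrix.mul_one] at this
        · refine ⟨φ * φ', Or.inr ?_⟩
          have := h.mul h' hd
          rwa [hφ, Matrix.one_mul] at this
        · refine ⟨φ * φ', Or.inr ?_⟩
          have := h.mul h' h1d
          rwa [h1map, Matrix.mul_one] at this
        · refine ⟨φ * φ', Or.inl ?_⟩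
          have := h.mul h' hd
          rw [hφ, hd2] at this
          exact this.smul
      inv_mem' := by
        rintro f ⟨φ, h | h⟩
        · exact ⟨φ⁻¹, Or.inl (h.inv (h1map φ) one_ne_zero (by rw [Matrix.mul_one, one_smul]))⟩
        · exact ⟨φ⁻¹, Or.inr (h.inv (hφ φ) hc₀ hd2)⟩ }
  have hTm : ∀ f, f ∈ T ↔ ∃ φ : F ≃+* F, RR F f 1 φ ∨ RR F f d φ := fun f => Iff.rfl
  refine ⟨T, ?_, ?_⟩
  · rw [disjoint_iff]
    rw [eq_bot_iff]
    intro f hf
    rw [Subgroup.mem_inf, hTm] at hf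
    obtain ⟨⟨φ, h⟩, x, hx⟩ := hf
    obtain ⟨s, rfl⟩ := QuotientGroup.mk_surjective x
    rw [Subgroup.mem_bot]
    rcases h with h | h
    · exact disj h1d (Or.inl rfl) h s hx
    · exact disj hd hns h s hx
  · rw [codisjoint_iff, eq_top_iff]
    intro f _
    obtain ⟨g, φ, hg, h⟩ := hfull f
    have hkey : ∀ (d' : Matrix (Fin 2) (Fin 2) F) (c : F), d'.det ≠ 0 → g.det = c ^ 2 * d'.det →
        (∀ f', RR F f' d' φ → f' ∈ T) → f ∈ T ⊔ (MulAut.conj :
          Matrix.ProjectiveSpecialLinearGroup (Fin 2) F →*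
          MulAut (Matrix.ProjectiveSpecialLinearGroup (Fin 2) F)).range := by
      intro d' c hd' hgc hT
      have hc : c ≠ 0 := by
        rintro rfl
        rw [hgc] at hg
        simp at hg
      have hu : IsUnit d'.det := isUnit_iff_ne_zero.mpr hd'
      have hdet1 : (c⁻¹ • (g * d'⁻¹)).det = 1 := by
        rw [Matrix.det_smul, Matrix.det_mul, hgc, Matrix.det_nonsing_inv, Ring.inverse_eq_inv']
        simp only [Fintype.card_fin]
        field_simp
      set s : Matrix.SpecialLinearGroup (Fin 2) F := ⟨c⁻¹ • (g * d'⁻¹), hdet1⟩ with hs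
      have hgs : g = c • ((s : Matrix (Fin 2) (Fin 2) F) * d') := by
        change g = c • (c⁻¹ • (g * d'⁻¹) * d')
        rw [Matrix.smul_mul, smul_smul, mul_inv_cancel₀ hc, one_smul, Matrix.mul_assoc,
          Matrix.nonsing_inv_mul d' hu, Matrix.mul_one]
      have h5 := hT _ (h.inner s hgs)
      have h6 : f = MulAut.conj
          (QuotientGroup.mk s : Matrix.ProjectiveSpecialLinearGroup (Fin 2) F) *
          ((MulAut.conj (QuotientGroup.mk s :
            Matrix.ProjectiveSpecialLinearGroup (Fin 2) F))⁻¹ * f) := by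
        rw [mul_inv_cancel_left]
      rw [h6]
      exact Subgroup.mul_mem _ (Subgroup.mem_sup_right ⟨_, rfl⟩) (Subgroup.mem_sup_left h5)
    rcases hsq g.det hg with ⟨c, hc⟩ | ⟨c, hc⟩
    · exact hkey 1 c h1d (by rw [Matrix.det_one, mul_one]; exact hc)
        fun f' hf' => ⟨φ, Or.inl hf'⟩
    · exact hkey d c hd hc fun f' hf' => ⟨φ, Or.inr hf'⟩

/-- a number that is not a square in a field of odd degree -/
theorem exists_ns [Finite F] (p k : ℕ) (hp : p.Prime) (hcard : Nat.card F = p ^ k) (hp2 : p ≠ 2)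
    (hk : Odd k) : ∃ r : ℕ, (r : F) ≠ 0 ∧ (∀ x : F, x ≠ 0 → IsSquare x ∨ IsSquare (x * (r : F))) ∧
      ¬ IsSquare (r : F) := by
  have := Fact.mk hp
  have : Fintype F := Fintype.ofFinite F
  have hcard' : Fintype.card F = p ^ k := by rw [← Nat.card_eq_fintype_card]; exact hcard
  have hch : CharP F p := charP_of_card_eq_prime_pow hcard'
  have hrc : ringChar F ≠ 2 := by rw [ringChar.eq F p]; exact hp2
  have hrz : ringChar (ZMod p) ≠ 2 := by rw [ZMod.ringChar_zmod_n]; exact hp2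
  obtain ⟨r₀, hr₀⟩ := FiniteField.exists_nonsquare hrz
  have hr00 : r₀ ≠ 0 := by rintro rfl; exact hr₀ (IsSquare.zero)
  obtain ⟨r, hr⟩ : ∃ r : ℕ, (r : ZMod p) = r₀ := ⟨r₀.val, ZMod.natCast_zmod_val r₀⟩
  have hpow : r₀ ^ (p / 2) = -1 := by
    have h1 := FiniteField.pow_dichotomy hrz hr00
    rw [FiniteField.isSquare_iff hrz hr00] at hr₀
    rw [ZMod.card] at h1 hr₀
    exact h1.resolve_left hr₀
  have hdvd : p ∣ r ^ (p / 2) + 1 := by
    rw [← ZMod.natCast_eq_zero_iff]
    push_cast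
    rw [hr, hpow]; ring
  have hF : (r : F) ^ (p / 2) = -1 := by
    have h1 : ((r ^ (p / 2) + 1 : ℕ) : F) = 0 := (CharP.cast_eq_zero_iff F p _).mpr hdvd
    push_cast at h1
    linear_combination h1
  have hrF : (r : F) ≠ 0 := by
    intro h
    have : (p : ℕ) ∣ r := (CharP.cast_eq_zero_iff F p _).mp h
    apply hr00
    rw [← hr]
    exact (ZMod.natCast_eq_zero_iff _ _).mpr this
  -- the exponent
  obtain ⟨a, ha⟩ : ∃ a, p = 2 * a + 1 := (hp.eq_two_or_odd').resolve_left hp2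
  set S := ∑ i ∈ Finset.range k, p ^ i with hS
  have hSodd : Odd S := by
    rw [hS, Finset.odd_sum_iff_odd_card_odd]
    have : (Finset.range k).filter (fun i => Odd (p ^ i)) = Finset.range k := by
      apply Finset.filter_true_of_mem
      intro i _
      exact Odd.pow ⟨a, ha⟩
    rw [this, Finset.card_range]
    exact hk
  have hgeom : S * (2 * a) + 1 = p ^ k := by
    have h1 : (∑ i ∈ Finset.range k, (p : ℤ) ^ i) * ((p : ℤ) - 1) = (p : ℤ) ^ k - 1 :=
      geom_sum_mul (p : ℤ) k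
    have h2 : ((S * (2 * a) + 1 : ℕ) : ℤ) = ((p ^ k : ℕ) : ℤ) := by
      rw [hS]
      push_cast
      have h3 : (p : ℤ) - 1 = 2 * a := by rw [ha]; push_cast; ring
      rw [h3] at h1
      linarith
    exact_mod_cast h2
  have hhalf : p ^ k / 2 = a * S := by
    rw [← hgeom]
    have : S * (2 * a) + 1 = 2 * (a * S) + 1 := by ring
    rw [this]; omega
  have hahalf : p / 2 = a := by rw [ha]; omega
  have hrq : (r : F) ^ (Fintype.card F / 2) = -1 := by
    rw [hcard', hhalf, pow_mul, ← hahalf, hF, hSodd.neg_one_pow]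
  have hm1 : (-1 : F) ≠ 1 := Ring.neg_one_ne_one_of_char_ne_two hrc
  refine ⟨r, hrF, ?_, ?_⟩
  · intro x hx
    rcases FiniteField.pow_dichotomy hrc hx with h | h
    · exact Or.inl ((FiniteField.isSquare_iff hrc hx).mpr h)
    · right
      rw [FiniteField.isSquare_iff hrc (mul_ne_zero hx hrF), mul_pow, h, hrq]
      ring
  · rw [FiniteField.isSquare_iff hrc hrF, hrq]
    exact hm1

/-- the complement, from the description of the automorphisms -/
theorem compl_body [Finite F] (hAUT : ∀ f : MulAut (Matrix.ProjectiveSpecialLinearGroup (Fin 2) F),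
      ∃ (g : Matrix.GeneralLinearGroup (Fin 2) F) (φ : F ≃+* F),
        ∀ A B : Matrix.SpecialLinearGroup (Fin 2) F,
        (B : Matrix (Fin 2) (Fin 2) F) * g.1 = g.1 * (A : Matrix (Fin 2) (Fin 2) F).map φ →
        f (QuotientGroup.mk A) = QuotientGroup.mk B)
    (p k : ℕ) (hp : p.Prime) (hcard : Nat.card F = p ^ k) (hpk : p = 2 ∨ Odd k) :
    ∃ T : Subgroup (MulAut (Matrix.ProjectiveSpecialLinearGroup (Fin 2) F)),
      IsCompl T (MulAut.conj : Matrix.ProjectiveSpecialLinearGroup (Fin 2) F →*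
        MulAut (Matrix.ProjectiveSpecialLinearGroup (Fin 2) F)).range := by
  have hfull : ∀ f : MulAut (Matrix.ProjectiveSpecialLinearGroup (Fin 2) F),
      ∃ (g : Matrix (Fin 2) (Fin 2) F) (φ : F ≃+* F), g.det ≠ 0 ∧ RR F f g φ := by
    intro f
    obtain ⟨g, φ, h⟩ := hAUT f
    exact ⟨g.1, φ, ((Matrix.isUnit_iff_isUnit_det _).mp g.isUnit).ne_zero, h⟩
  by_cases hp2 : p = 2
  · subst hp2
    have : Fact (Nat.Prime 2) := ⟨hp⟩
    have : Fintype F := Fintype.ofFinite F
    have hcard' : Fintype.card F = 2 ^ k := by rw [← Nat.card_eq_fintype_card]; exact hcard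
    have hch : CharP F 2 := charP_of_card_eq_prime_pow hcard'
    refine compl_of hfull 1 (fun φ => by simp) one_ne_zero (by rw [Matrix.mul_one, one_smul])
      (by rw [Matrix.det_one]; exact one_ne_zero) ?_ (Or.inl rfl)
    intro x _
    left
    obtain ⟨c, hc⟩ := FiniteField.isSquare_of_char_two (ringChar.eq F 2) x
    exact ⟨c, by rw [hc, sq]⟩
  · have hk : Odd k := hpk.resolve_left hp2
    obtain ⟨r, hr0, hr1, hr2⟩ := exists_ns (F := F) p k hp hcard hp2 hk
    have hdet : (!![0, -(r : F); 1, 0] : Matrix (Fin 2) (Fin 2) F).det = r := by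
      rw [Matrix.det_fin_two_of]; ring
    refine compl_of hfull !![0, -(r : F); 1, 0] ?_ (neg_ne_zero.mpr hr0) ?_ ?_ ?_ ?_
    · intro φ
      ext i j
      fin_cases i <;> fin_cases j <;> simp
    · ext i j
      fin_cases i <;> fin_cases j <;> simp [Matrix.mul_apply, Fin.sum_univ_two]
    · rw [hdet]; exact hr0
    · intro x hx
      rw [hdet]
      rcases hr1 x hx with ⟨c, hc⟩ | ⟨c, hc⟩
      · exact Or.inl ⟨c, by rw [hc, sq]⟩
      · right
        refine ⟨c / r, ?_⟩
        field_simp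
        rw [sq, ← hc]
    · right
      rw [hdet]; exact hr2

end Pool.Agent.Y461.DC
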