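import Pool.Agent.Y60.DC.Stm3
import Pool.Agent.Y60.DC.Stm
import Pool.Agent.Y461.DC.ComplA

/-!
Job DC-COMPL.
-/

set_option autoImplicit false

namespace Pool.Agent.Y461.DC

theorem compl_holds : Pool.Agent.Y60.DC.TaskAUT → Pool.Agent.Y60.DC.TaskCOMPL := by
  intro hAUT F _ _ p k hp h4 hcard hpk
  exact compl_body (fun f => hAUT F h4 f) p k hp hcard hpk

end Pool.Agent.Y461.DC
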